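import Pool.Agent.H7.GU.Stmts

set_option autoImplicit false

open Finset

namespace Pool.GU7

open Pool.Agent.H23.KT Pool.Agent.H46.KW Pool.KQ Pool.GT7

private theorem zyg_empty {V : Type} {G : SimpleGraph V} {W : Finset V} (h : CB G W 0) : W = ∅ := by
  rw [eq_empty_iff_forall_notMem]
  intro x hx
  have := h {x} (singleton_subset_iff.2 hx) (by simp)
  simp at this

private theorem zyg_ineq (q j : ℕ) {n y : ℝ} (hn : 0 ≤ n) (hy : 0 ≤ y) :
    (n - q * y) * (q.choose j * y ^ j) + q.choose (j + 1) * y ^ (j + 1) ≤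
      (q + 1).choose (j + 1) * (n / ((q + 1 : ℕ) : ℝ)) ^ (j + 1) := by
  set t : ℝ := n / ((q + 1 : ℕ) : ℝ) with ht
  have hq : (0 : ℝ) < ((q + 1 : ℕ) : ℝ) := by positivity
  have hnt : n = ((q : ℝ) + 1) * t := by
    rw [ht]
    push_cast
    field_simp
  have ht0 : 0 ≤ t := by positivity
  have tan := tangent j ht0 hy
  have e1 : ((q + 1).choose (j + 1) : ℝ) * ((j : ℝ) + 1) = ((q : ℝ) + 1) * q.choose j := by
    have := Nat.add_one_mul_choose_eq q j
    have h2 : (((q + 1) * q.choose j : ℕ) : ℝ) = (((q + 1).choose (j + 1) * (j + 1) : ℕ) : ℝ) := by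
      exact_mod_cast this
    push_cast at h2
    linarith
  have e2 : (q.choose (j + 1) : ℝ) * ((j : ℝ) + 1) = q.choose j * ((q : ℝ) - j) := by
    rcases Nat.lt_or_ge q j with h | h
    · rw [Nat.choose_eq_zero_of_lt h, Nat.choose_eq_zero_of_lt (by omega : q < j + 1)]
      simp
    · have := Nat.choose_succ_right_eq q j
      have h2 : ((q.choose (j + 1) * (j + 1) : ℕ) : ℝ) = ((q.choose j * (q - j) : ℕ) : ℝ) := by
        exact_mod_cast this
      rw [Nat.cast_mul, Nat.cast_mul, Nat.cast_sub h] at h2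
      push_cast at h2
      linarith
  have hj : (0 : ℝ) < (j : ℝ) + 1 := by positivity
  have hc : (0 : ℝ) ≤ q.choose j := by positivity
  refine le_of_mul_le_mul_right ?_ hj
  have l1 : ((n - q * y) * (q.choose j * y ^ j) + q.choose (j + 1) * y ^ (j + 1)) * ((j : ℝ) + 1)
      = q.choose j * ((q : ℝ) + 1) * (((j : ℝ) + 1) * t * y ^ j - j * y ^ (j + 1)) := by
    rw [add_mul, mul_right_comm (q.choose (j + 1) : ℝ), e2, hnt]
    ring
  have l2 : ((q + 1).choose (j + 1) * t ^ (j + 1)) * ((j : ℝ) + 1)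
      = q.choose j * ((q : ℝ) + 1) * t ^ (j + 1) := by
    rw [mul_right_comm, e1]
    ring
  rw [l1, l2]
  exact mul_le_mul_of_nonneg_left (by linarith) (by positivity)

theorem ZYG_thm : ZYGStmt := by
  intro V _ G q
  induction q with
  | zero =>
    intro W hW j
    rw [zyg_empty hW]
    rcases j with _ | j
    · simp [kc_zero]
    · rw [kc_eq_zero G (by simp)]
      simp
  | succ q ih =>
    intro W hW j
    rcases j with _ | j
    · simp [kc_zero]
    rcases W.eq_empty_or_nonempty with rfl | hne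
    · rw [kc_eq_zero G (by simp)]
      simp
    obtain ⟨y, hy, hmax⟩ := exists_max_image W (fun y => kc G (nb G W y) j) hne
    have h1 := kc_le_sum (G := G) W j (W \ nb G W y) sdiff_subset
    have h2 : W \ (W \ nb G W y) = nb G W y := Finset.sdiff_sdiff_eq_self (nb_subset G W y)
    have hCB : CB G (nb G W y) q := hW.nb hy
    rw [h2] at h1
    have h3 : ∑ u ∈ W \ nb G W y, kc G (nb G W u) j
        ≤ (W \ nb G W y).card * kc G (nb G W y) j := by
      rw [← smul_eq_mul]
      exact sum_le_card_nsmul _ _ _ (fun u hu => hmax u (mem_sdiff.1 hu).1)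
    have h4 := ih _ hCB j
    have h4' := ih _ hCB (j + 1)
    have h5 := card_sdiff_add_card_eq_card (nb_subset G W y)
    have h6 : (kc G W (j + 1) : ℝ) ≤ (W \ nb G W y).card * kc G (nb G W y) j
        + kc G (nb G W y) (j + 1) := by
      exact_mod_cast h1.trans (Nat.add_le_add_right h3 _)
    set d : ℝ := ((nb G W y).card : ℝ) with hd
    set u : ℝ := ((W \ nb G W y).card : ℝ) with hu
    have h7 : u + d = (W.card : ℝ) := by rw [hu, hd]; exact_mod_cast h5
    have hd0 : 0 ≤ d := by positivity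
    have hu0 : 0 ≤ u := by positivity
    have hdq : d = q * (d / q) := by
      rcases Nat.eq_zero_or_pos q with hq | hq
      · subst hq
        rw [hd, zyg_empty hCB]
        simp
      · have : (0 : ℝ) < q := by exact_mod_cast hq
        field_simp
    have hz := zyg_ineq q j (n := (W.card : ℝ)) (y := d / q) (Nat.cast_nonneg _)
      (div_nonneg hd0 (Nat.cast_nonneg _))
    have h8 : u = (W.card : ℝ) - q * (d / q) := by rw [← hdq]; linarith
    calc (kc G W (j + 1) : ℝ) ≤ u * kc G (nb G W y) j + kc G (nb G W y) (j + 1) := h6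
      _ ≤ u * (q.choose j * (d / q) ^ j) + q.choose (j + 1) * (d / q) ^ (j + 1) :=
          add_le_add (mul_le_mul_of_nonneg_left h4 hu0) h4'
      _ ≤ _ := by
          rw [h8]
          exact hz

end Pool.GU7
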